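import Mathlib
import Pool.Agent.T2h30.KS.Fin

set_option autoImplicit false

/-!
# Every non-smooth aperiodic countable Borel equivalence relation has a minimal `K_σ` realization

Outline of the proof. Let `E` be such a relation on `X`.
* By the Glimm-Effros dichotomy for `E` and a Cantor-Bernstein argument `E` is Borel isomorphic to
  the sum of `E` and of the product of tail equivalence on the sequences in `2^ℕ` of infinite
  support with the trivial relation on `ℕ` (this absorption is in the starting library).
* `X` is partitioned into Borel complete sections `B i`, with Borel finite-to-one maps `q i` of `X`
  onto `B i` inside the classes (greedy matchings by Borel involutions).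
* For a suitable zero-dimensional Polish topology on `X` the generating involutions are continuous,
  the maps `q i` are perfect, and `X` has a compactification with a countable remainder.
* In `2^ℕ × ℕ` the point `(w, n)`, for `w` of finite support, is replaced by the closure of the
  section with the index of `(w, n)`. The points near `w` in the `n`-th copy approach the points
  `q i x` simultaneously for all indices `i`, where `x` runs through a dense sequence. The graph of a
  translation from one copy to another has a compact closure inside the relation, and all
  classes are dense. The countable remainder and the point at infinity are added to one class.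
-/

namespace Pool.Agent.Results.MP_daea50_lc.MinimalKSigma

universe u

/-- Every aperiodic countable Borel equivalence relation `E` on a standard Borel space which has no
Borel transversal is Borel isomorphic to an equivalence relation on the Cantor space which is a
countable union of compact subsets of the square and all of whose classes are dense. -/
theorem result {X : Type u} [MeasurableSpace X] [StandardBorelSpace X]
    (E : X → X → Prop) (hE : Equivalence E) (hm : MeasurableSet {p : X × X | E p.1 p.2})
    (hc : ∀ x, {y | E x y}.Countable) (ha : ∀ x, {y | E x y}.Infinite)
    (hns : ¬ ∃ T : Set X, MeasurableSet T ∧ ∀ x, ∃! y, y ∈ T ∧ E x y) :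
    ∃ f : X ≃ᵐ (ℕ → Bool),
      (∃ K : ℕ → Set ((ℕ → Bool) × (ℕ → Bool)), (∀ n, IsCompact (K n)) ∧
        {p : (ℕ → Bool) × (ℕ → Bool) | E (f.symm p.1) (f.symm p.2)} = ⋃ n, K n) ∧
      ∀ y, Dense {z | E (f.symm y) (f.symm z)} :=
  Pool.Agent.T2h30.KS.main1 E hE hm hc ha hns

end Pool.Agent.Results.MP_daea50_lc.MinimalKSigma
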